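import Pool.Agent.Helper81.TP.Main

/-!
# Central symmetry of the sections by planes which touch an inner body

Let `2 ≤ k < n`, let `K`, `K1` be convex bodies in `ℝⁿ` with `K` in the interior of `K1`. If the sections
of `K1` by all `k`-dimensional planes which meet `K` and lie in a supporting hyperplane of `K` are
centrally symmetric, then `K1` is an ellipsoid. For `k = n - 1` this is the conjecture of Barker and Larman
(proved by helpers 18, 14 and others, frozen statement); for smaller `k` it is applied in the
`(k + 1)`-dimensional planes through a point `x` of the interior of `K`, and a convex body all of whose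
sections by `(k + 1)`-dimensional planes through `x` are ellipsoids is an ellipsoid (`k ≥ 2`).
-/

set_option autoImplicit false

open Module

namespace Pool.Agent.Results.MP_70efd9_gt.TangentPlanes

/-- A convex body: a compact convex set with nonempty interior. -/
structure ConvexBody {n : ℕ} (K : Set (EuclideanSpace ℝ (Fin n))) : Prop where
  convex : Convex ℝ K
  compact : IsCompact K
  interior : (interior K).Nonempty

/-- The plane `L` touches `K`: it meets `K`, and it lies in a hyperplane `{f = c}` such that `K` lies in the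
half-space `{f ≤ c}`. -/
def Touches {n : ℕ} (L : AffineSubspace ℝ (EuclideanSpace ℝ (Fin n)))
    (K : Set (EuclideanSpace ℝ (Fin n))) : Prop :=
  (∃ x ∈ K, x ∈ L) ∧
    ∃ (f : EuclideanSpace ℝ (Fin n) →L[ℝ] ℝ) (c : ℝ),
      f ≠ 0 ∧ (∀ x ∈ K, f x ≤ c) ∧ ∀ x ∈ L, f x = c

/-- There is a point `p` such that `A` is mapped into itself by `x ↦ 2 p - x`. -/
def CentrallySymmetric {n : ℕ} (A : Set (EuclideanSpace ℝ (Fin n))) : Prop :=
  ∃ p, ∀ x ∈ A, (2 : ℝ) • p - x ∈ A

/-- An image of the closed unit ball under an invertible affine map. -/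
def IsEllipsoid {n : ℕ} (A : Set (EuclideanSpace ℝ (Fin n))) : Prop :=
  ∃ (T : EuclideanSpace ℝ (Fin n) ≃ₗ[ℝ] EuclideanSpace ℝ (Fin n)) (a : EuclideanSpace ℝ (Fin n)),
    A = (fun x => a + T x) '' Metric.closedBall 0 1

theorem result (n k : ℕ) (hk : 2 ≤ k) (hkn : k < n) (K K1 : Set (EuclideanSpace ℝ (Fin n)))
    (hK : ConvexBody K) (hK1 : ConvexBody K1) (hsub : K ⊆ interior K1)
    (hsym : ∀ L : AffineSubspace ℝ (EuclideanSpace ℝ (Fin n)), finrank ℝ L.direction = k →
      Touches L K → CentrallySymmetric (K1 ∩ L)) :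
    IsEllipsoid K1 := by
  refine Pool.Agent.Helper81.TP.tangent_planes hk hkn K K1 hK.convex hK.compact hK.interior
    hK1.convex hK1.compact hsub fun L hL h1 h2 => ?_
  obtain ⟨p, hp⟩ := hsym L hL ⟨h1, h2⟩
  exact ⟨p, fun x hx hxL => hp x ⟨hx, hxL⟩⟩

end Pool.Agent.Results.MP_70efd9_gt.TangentPlanes
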